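import Pool.Agent.Helper18.EH.K4.Main

/-!
Lower bounds for the least `m` with `ω ^ n ↛ (ω ^ 4, m)²`.
-/

namespace Pool.Agent.Results.MP_633a91_lc.GrowthFour

open Ordinal Pool.Agent.Helper18.EH

theorem pow_mono {n n' : ℕ} (h : n ≤ n') : (ω : Ordinal.{0}) ^ n ≤ ω ^ n' :=
  pow_le_pow_right₀ Ordinal.one_lt_omega0.le h

theorem arrow_four : Arrow (ω ^ (3 + 1)) (ω ^ 4) 2 := by
  have := arrow_lower 3 1
  rwa [pow_one] at this

theorem arrow_abc (a b c : ℕ) :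
    Arrow (ω ^ (1 + 3 * a + 11 * b + 54 * c)) (ω ^ 4) (2 ^ a * 9 ^ b * (2 ^ 18 + 1) ^ c) := by
  have h1 := superPow arrow_four a
  have h2 := superPow (j := 11) arrow_twelve b
  have h3 := superPow (j := 54) arrow_55 c
  have h12 : Arrow (ω ^ (3 * a + (11 * b + 1))) (ω ^ 4) (2 ^ a * 9 ^ b) :=
    superMul (j := 3 * a) (b := 11 * b) h1 h2
  rw [← add_assoc] at h12
  have h4 : Arrow (ω ^ (3 * a + 11 * b + (54 * c + 1))) (ω ^ 4)
      (2 ^ a * 9 ^ b * (2 ^ 18 + 1) ^ c) :=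
    superMul (j := 3 * a + 11 * b) (b := 54 * c) h12 h3
  rwa [show 3 * a + 11 * b + (54 * c + 1) = 1 + 3 * a + 11 * b + 54 * c by ring] at h4

theorem arrow_dbl {n : ℕ} (hn : 55 ≤ n) : Arrow (ω ^ n) (ω ^ 4) (2 ^ ((n - 1) / 3) + 1) := by
  obtain ⟨d, rfl⟩ := Nat.exists_eq_add_of_le hn
  refine ((arrow_abc (d / 3) 0 1).mono ?_).mono_left (pow_mono (by omega))
  rw [show (55 + d - 1) / 3 = 18 + d / 3 by omega, pow_add, pow_zero, pow_one, mul_one, mul_add,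
    mul_one, mul_comm]
  have : 0 < 2 ^ (d / 3) := by positivity
  omega

/-- Lower bounds for the least `m` with `ω ^ n ↛ (ω ^ 4, m)²`: a multiplicative family, the
failure of the formula `2 ^ ⌊(n - 1) / 3⌋ + 1` for all `n ≥ 55`, and exponential growth with a
base larger than the cube root of `2`. -/
theorem result :
    (∀ a b c : ℕ, Arrow (ω ^ (1 + 3 * a + 11 * b + 54 * c)) (ω ^ 4)
      (2 ^ a * 9 ^ b * (2 ^ 18 + 1) ^ c)) ∧
    (∀ n : ℕ, 55 ≤ n → Arrow (ω ^ n) (ω ^ 4) (2 ^ ((n - 1) / 3) + 1)) ∧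
    ∃ l : ℝ, 2 < l ^ 3 ∧ ∃ e : ℝ, 0 < e ∧
      ∀ n m : ℕ, (m : ℝ) ≤ e * l ^ n → Arrow (ω ^ n) (ω ^ 4) m := by
  refine ⟨arrow_abc, fun n hn => arrow_dbl hn, ?_⟩
  have h0 : (0 : ℝ) ≤ 2 ^ 18 + 1 := by norm_num
  set l : ℝ := ((2 : ℝ) ^ 18 + 1) ^ ((1 : ℝ) / 54) with hl
  have hl0 : 0 < l := by positivity
  have hl54 : l ^ 54 = 2 ^ 18 + 1 := by
    rw [hl, ← Real.rpow_natCast, ← Real.rpow_mul h0]
    norm_num
  have hl3 : 2 < l ^ 3 := by
    by_contra hcon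
    have h1 : (l ^ 3) ^ 18 ≤ 2 ^ 18 := pow_le_pow_left₀ (by positivity) (not_lt.1 hcon) 18
    rw [← pow_mul, show 3 * 18 = 54 from rfl, hl54] at h1
    linarith
  have hl1 : 1 ≤ l := by
    by_contra hcon
    have h1 : l ^ 3 ≤ 1 := pow_le_one₀ hl0.le (not_le.1 hcon).le
    linarith
  refine ⟨l, hl3, 1 / (2 ^ 18 + 1), by positivity, ?_⟩
  intro n m hm
  rcases Nat.eq_zero_or_pos n with rfl | hn
  · have hm0 : m < 1 := by
      have : (m : ℝ) < 1 := by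
        refine lt_of_le_of_lt hm ?_
        norm_num
      exact_mod_cast this
    exact arrow_one.mono (by omega)
  · have hle : n ≤ 54 * ((n - 1) / 54 + 1) := by omega
    have h1 : l ^ n ≤ (2 ^ 18 + 1) ^ ((n - 1) / 54 + 1) := by
      rw [← hl54, ← pow_mul]
      exact pow_le_pow_right₀ hl1 hle
    have h2 : (m : ℝ) ≤ (2 ^ 18 + 1) ^ ((n - 1) / 54) := by
      refine hm.trans ?_
      rw [pow_succ] at h1
      rw [div_mul_eq_mul_div, one_mul, div_le_iff₀ (by positivity)]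
      exact h1
    have h3 : m ≤ (2 ^ 18 + 1) ^ ((n - 1) / 54) := by exact_mod_cast h2
    have h4 := arrow_abc 0 0 ((n - 1) / 54)
    refine (h4.mono ?_).mono_left (pow_mono (by omega))
    simpa using h3

end Pool.Agent.Results.MP_633a91_lc.GrowthFour
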