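import Pool.Agent.Helper18.EH.Lower
import Pool.Agent.Helper77.EH.Steps
import Pool.Agent.Helper77.EX.Nine

/-!
Upper bounds for the least `m` with `ω ^ n ↛ (ω ^ 4, m)²`, and its exact value for twelve `n`.
-/

namespace Pool.Agent.Results.MP_633a91_lc.UpperFour

open Ordinal Pool.Agent.Helper18.EH Pool.Agent.Helper77.EH Pool.Agent.Helper77.EX

theorem not_arrow_mono {n n' m m' : ℕ} (h : ¬ Arrow (ω ^ n') (ω ^ 4) m') (hn : n ≤ n')
    (hm : m' ≤ m) : ¬ Arrow (ω ^ n) (ω ^ 4) m := by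
  intro h'
  exact h ((h'.mono hm).mono_left (pow_le_pow_right₀ Ordinal.one_lt_omega0.le hn))

theorem ub9 (q : ℕ) : ∀ i, UB (i + (9 + 5 * q)) i (4 ^ (q + 1)) := by
  induction q with
  | zero => exact fun i => ub_nine i
  | succ q ih =>
    intro i
    have h := ih (i + 5)
    rw [show i + 5 + (9 + 5 * q) = i + (9 + 5 * (q + 1)) by ring] at h
    have := ub_step5 h
    rwa [show 4 * 4 ^ (q + 1) = 4 ^ (q + 1 + 1) by ring] at this

theorem ub11 (q : ℕ) : ∀ i, UB (i + (11 + 5 * q)) i (8 * 4 ^ q) := by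
  induction q with
  | zero =>
    intro i
    have h := ub_nine (i + 2)
    rw [show i + 2 + 9 = i + (11 + 5 * 0) by ring] at h
    exact ub_step2 h
  | succ q ih =>
    intro i
    have h := ih (i + 5)
    rw [show i + 5 + (11 + 5 * q) = i + (11 + 5 * (q + 1)) by ring] at h
    have := ub_step5 h
    rwa [show 4 * (8 * 4 ^ q) = 8 * 4 ^ (q + 1) by ring] at this

theorem ub12 (q : ℕ) : ∀ i, UB (i + (12 + 5 * q)) i (12 * 4 ^ q) := by
  induction q with
  | zero =>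
    intro i
    have h := ub_nine (i + 3)
    rw [show i + 3 + 9 = i + (12 + 5 * 0) by ring] at h
    exact ub_step3 h
  | succ q ih =>
    intro i
    have h := ih (i + 5)
    rw [show i + 5 + (12 + 5 * q) = i + (12 + 5 * (q + 1)) by ring] at h
    have := ub_step5 h
    rwa [show 4 * (12 * 4 ^ q) = 12 * 4 ^ (q + 1) by ring] at this

theorem up6 : ¬ Arrow (ω ^ 6) (ω ^ 4) (2 + 1) := by
  have h := ub_six 0
  rw [Nat.zero_add] at h
  exact h.not_arrow

theorem up9 (q : ℕ) : ¬ Arrow (ω ^ (9 + 5 * q)) (ω ^ 4) (4 ^ (q + 1) + 1) := by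
  have h := ub9 q 0
  rw [Nat.zero_add] at h
  exact h.not_arrow

theorem up11 (q : ℕ) : ¬ Arrow (ω ^ (11 + 5 * q)) (ω ^ 4) (8 * 4 ^ q + 1) := by
  have h := ub11 q 0
  rw [Nat.zero_add] at h
  exact h.not_arrow

theorem up12 (q : ℕ) : ¬ Arrow (ω ^ (12 + 5 * q)) (ω ^ 4) (12 * 4 ^ q + 1) := by
  have h := ub12 q 0
  rw [Nat.zero_add] at h
  exact h.not_arrow

/-- The upper bound for `f(4, n) - 1`. -/
def U (n : ℕ) : ℕ :=
  if n ≤ 6 then 2 else
  if n ≤ 9 then 4 else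
  if (n - 10) % 5 ≤ 1 then 8 * 4 ^ ((n - 10) / 5) else
  if (n - 10) % 5 = 2 then 12 * 4 ^ ((n - 10) / 5) else 16 * 4 ^ ((n - 10) / 5)

/-- `f(4, n) ≤ U n + 1` for all `n ≥ 4`, where `f(4, n)` is the least `m` with
`ω ^ n ↛ (ω ^ 4, m)²`, with equality for `n` in `{4, …, 11, 13, 14, 16, 19}`. -/
theorem result : ∀ n : ℕ, 4 ≤ n → ¬ Arrow (ω ^ n) (ω ^ 4) (U n + 1) ∧
    (n ∈ ({4, 5, 6, 7, 8, 9, 10, 11, 13, 14, 16, 19} : Finset ℕ) →
      Arrow (ω ^ n) (ω ^ 4) (U n)) := by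
  intro n hn
  constructor
  · unfold U
    split_ifs with h1 h2 h3 h4
    · exact not_arrow_mono up6 h1 le_rfl
    · exact not_arrow_mono (up9 0) (by omega) (by norm_num)
    · exact not_arrow_mono (up11 ((n - 10) / 5)) (by omega) le_rfl
    · exact not_arrow_mono (up12 ((n - 10) / 5)) (by omega) le_rfl
    · have h := up9 ((n - 10) / 5 + 1)
      rw [show 4 ^ ((n - 10) / 5 + 1 + 1) = 16 * 4 ^ ((n - 10) / 5) by ring] at h
      exact not_arrow_mono h (by omega) le_rfl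
  · intro h
    have h4 : Arrow (ω ^ n) (ω ^ 4) (2 ^ ((n - 1) / 3)) :=
      erdos_milner (k := 4) (by omega) (by omega)
    have hU : U n = 2 ^ ((n - 1) / 3) := by
      simp only [Finset.mem_insert, Finset.mem_singleton] at h
      rcases h with rfl | rfl | rfl | rfl | rfl | rfl | rfl | rfl | rfl | rfl | rfl | rfl <;>
        norm_num [U]
    rw [hU]
    exact h4

end Pool.Agent.Results.MP_633a91_lc.UpperFour
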